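import Pool.Agent.Q127.Kom.Stage
import Pool.Agent.H167R2.KNNum

/-!
# All levels
-/

set_option autoImplicit false

namespace Pool.Agent.Q127.Kom

open Finset Real H167BK H167KN

/-- the levels -/
noncomputable def lv (σ : ℝ) : ℕ → ℝ
  | 0 => 0
  | l + 1 => σ * 4 ^ l

theorem lv_zero (σ : ℝ) : lv σ 0 = 0 := rfl

theorem lv_succ (σ : ℝ) (l : ℕ) : lv σ (l + 1) = σ * 4 ^ l := rfl

theorem lv_succ_succ (σ : ℝ) (l : ℕ) : lv σ (l + 2) = 4 * lv σ (l + 1) := by
  rw [lv_succ, lv_succ, pow_succ]; ring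

theorem one_le_lv {σ : ℝ} (hσ : 1 ≤ σ) (l : ℕ) : 1 ≤ lv σ (l + 1) := by
  rw [lv_succ]
  have : (1 : ℝ) ≤ 4 ^ l := one_le_pow₀ (by norm_num)
  nlinarith

theorem lv_nonneg {σ : ℝ} (hσ : 1 ≤ σ) (l : ℕ) : 0 ≤ lv σ l := by
  cases l with
  | zero => rw [lv_zero]
  | succ l => have := one_le_lv hσ l; linarith

/-- row cost of the stage `l` (for rows divided by `δ`) -/
noncomputable def KK (δ σ : ℝ) (l : ℕ) : ℝ := H167KN.cst (2 / δ ^ 2) (5 + 2 * lv σ (l + 1))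

/-- total Euclidean cost of the stages from `l` on -/
noncomputable def hh (δ σ : ℝ) : ℕ → ℝ
  | 0 => KK δ σ 0 + 300000 / δ * exp (-(lv σ 1) / 4)
  | l + 1 => 300000 / δ * exp (-(lv σ (l + 1)) / 4)

theorem two_div_ge {δ : ℝ} (hδ0 : 0 < δ) (hδ1 : δ ≤ 1) : (1 : ℝ) ≤ 2 / δ ^ 2 := by
  rw [le_div_iff₀ (by positivity)]; nlinarith

theorem KK_nonneg {δ σ : ℝ} (hδ0 : 0 < δ) (hδ1 : δ ≤ 1) (l : ℕ) : 0 ≤ KK δ σ l :=
  H167KN.cst_nonneg (two_div_ge hδ0 hδ1)

theorem hh_nonneg {δ σ : ℝ} (hδ0 : 0 < δ) (hδ1 : δ ≤ 1) (l : ℕ) : 0 ≤ hh δ σ l := by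
  cases l with
  | zero =>
    have := KK_nonneg (σ := σ) hδ0 hδ1 0
    unfold hh; positivity
  | succ l => unfold hh; positivity

theorem KK_le {δ σ : ℝ} (hδ0 : 0 < δ) (hσ : 1 ≤ σ) (l : ℕ) :
    KK δ σ (l + 1) ≤ 150000 / δ * exp (lv σ (l + 1) / 4) := by
  have h1 : KK δ σ (l + 1) ≤ 52000 * Real.sqrt (Real.sqrt (5 + 2 * lv σ (l + 2))) *
      Real.sqrt (2 / δ ^ 2) := min_le_left _ _
  refine h1.trans ?_
  set s := lv σ (l + 1) with hs
  have hs1 : 1 ≤ s := one_le_lv hσ l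
  rw [lv_succ_succ, ← hs]
  have h2 : Real.sqrt (2 / δ ^ 2) ≤ 1.42 / δ := by
    apply Real.sqrt_le_iff.2
    refine ⟨by positivity, ?_⟩
    rw [div_pow]
    exact div_le_div_of_nonneg_right (by norm_num) (by positivity)
  have h3 : Real.sqrt (Real.sqrt (5 + 2 * (4 * s))) ≤ 2 * exp (s / 4) := by
    apply Real.sqrt_le_iff.2
    refine ⟨by positivity, ?_⟩
    apply Real.sqrt_le_iff.2
    refine ⟨by positivity, ?_⟩
    have h4 : ((2 * exp (s / 4)) ^ 2) ^ 2 = 16 * exp s := by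
      have h5 : exp s = exp (s / 4) ^ 4 := by
        rw [← Real.exp_nat_mul]; congr 1; push_cast; ring
      rw [h5]; ring
    rw [h4]
    have := Real.add_one_le_exp s
    linarith
  calc 52000 * Real.sqrt (Real.sqrt (5 + 2 * (4 * s))) * Real.sqrt (2 / δ ^ 2)
      ≤ 52000 * (2 * exp (s / 4)) * (1.42 / δ) := by gcongr
    _ = 147680 / δ * exp (s / 4) := by ring
    _ ≤ 150000 / δ * exp (s / 4) := by
        apply mul_le_mul_of_nonneg_right _ (exp_pos _).le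
        exact div_le_div_of_nonneg_right (by norm_num) hδ0.le

theorem hh_step {δ σ : ℝ} (hδ0 : 0 < δ) (hσ : 1 ≤ σ) (l : ℕ) :
    exp (-(lv σ l) / 2) * KK δ σ l + hh δ σ (l + 1) ≤ hh δ σ l := by
  cases l with
  | zero => rw [lv_zero]; unfold hh; simp
  | succ l =>
    have h1 := KK_le hδ0 hσ l
    have h2 : hh δ σ (l + 2) = 300000 / δ * exp (-(4 * lv σ (l + 1)) / 4) := by
      unfold hh; rw [← lv_succ_succ]
    have h3 : hh δ σ (l + 1) = 300000 / δ * exp (-(lv σ (l + 1)) / 4) := rfl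
    rw [h2, h3]
    set s := lv σ (l + 1) with hs
    have hs1 : 1 ≤ s := one_le_lv hσ l
    have h4 : exp (-s / 2) * KK δ σ (l + 1) ≤ 150000 / δ * exp (-s / 4) := by
      calc exp (-s / 2) * KK δ σ (l + 1) ≤ exp (-s / 2) * (150000 / δ * exp (s / 4)) := by gcongr
        _ = 150000 / δ * (exp (-s / 2) * exp (s / 4)) := by ring
        _ = 150000 / δ * exp (-s / 4) := by
            rw [← Real.exp_add]; congr 2; ring
    have h5 : exp (-(4 * s) / 4) ≤ 1 / 2 * exp (-s / 4) := by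
      have h6 : exp (-(4 * s) / 4) = exp (-(3 * s / 4)) * exp (-s / 4) := by
        rw [← Real.exp_add]; congr 1; ring
      rw [h6]
      apply mul_le_mul_of_nonneg_right _ (exp_pos _).le
      rw [Real.exp_neg, inv_le_comm₀ (exp_pos _) (by norm_num)]
      have h7 := Real.quadratic_le_exp_of_nonneg (show 0 ≤ 3 * s / 4 by linarith)
      nlinarith
    have h8 : 300000 / δ * exp (-(4 * s) / 4) ≤ 150000 / δ * exp (-s / 4) := by
      calc 300000 / δ * exp (-(4 * s) / 4) ≤ 300000 / δ * (1 / 2 * exp (-s / 4)) := by gcongr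
        _ = 150000 / δ * exp (-s / 4) := by ring
    have h9 : 300000 / δ * exp (-s / 4) = 150000 / δ * exp (-s / 4) + 150000 / δ * exp (-s / 4) := by
      ring
    rw [h9]
    exact add_le_add h4 h8

variable {I J : Type*} [Fintype I] [Fintype J]

/-- the statement for the level `l` -/
def GoodL (v : I → J → ℝ) (δ σ M : ℝ) (l : ℕ) : Prop :=
  ∀ x : J → ℝ, (∀ j, |x j| ≤ 1) →
    ((H167FK.Sys.alive x).card : ℝ) ≤ M * exp (-(lv σ l)) →
    ∃ y : J → ℝ, (∀ j, |y j| = 1) ∧ (∀ j, |x j| = 1 → y j = x j) ∧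
      ∀ m, l ≤ m → ∃ E F : I → ℝ, (∀ i, ∑ j, v i j * (y j - x j) = E i + F i) ∧
        (∀ i, |E i| ≤ ∑ q ∈ Finset.Ico l m, δ * KK δ σ q) ∧
        ∑ i, F i ^ 2 ≤ M * hh δ σ m ^ 2

theorem goodL_empty (v : I → J → ℝ) {δ σ M : ℝ} (hδ0 : 0 < δ) (hδ1 : δ ≤ 1) (hM : 0 ≤ M) (l : ℕ)
    (hlt : M * exp (-(lv σ l)) < 1) : GoodL v δ σ M l := by
  classical
  intro x hx hal
  have h0 : H167FK.Sys.alive x = ∅ := by
    rw [← Finset.card_eq_zero]
    have : ((H167FK.Sys.alive x).card : ℝ) < 1 := lt_of_le_of_lt hal hlt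
    exact_mod_cast (by exact_mod_cast this : (H167FK.Sys.alive x).card < 1) |> Nat.lt_one_iff.1
  refine ⟨x, fun j => H167FK.Sys.abs_eq_one hx (by rw [h0]; simp), fun _ _ => rfl, fun m _ =>
    ⟨fun _ => 0, fun _ => 0, fun i => by simp, fun i => ?_, ?_⟩⟩
  · rw [abs_zero]
    exact Finset.sum_nonneg fun q _ => mul_nonneg hδ0.le (KK_nonneg hδ0 hδ1 q)
  · simp only [ne_eq, OfNat.ofNat_ne_zero, not_false_eq_true, zero_pow, sum_const_zero]
    positivity

/-- Minkowski for two vectors -/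
theorem l2_add (D F : I → ℝ) (a b M : ℝ) (ha : 0 ≤ a) (hb : 0 ≤ b) (hM : 0 ≤ M)
    (hD : ∑ i, D i ^ 2 ≤ M * a ^ 2) (hF : ∑ i, F i ^ 2 ≤ M * b ^ 2) :
    ∑ i, (D i + F i) ^ 2 ≤ M * (a + b) ^ 2 := by
  have h1 : (∑ i, D i * F i) ^ 2 ≤ (M * a * b) ^ 2 := by
    calc (∑ i, D i * F i) ^ 2 ≤ (∑ i, D i ^ 2) * ∑ i, F i ^ 2 :=
          Finset.sum_mul_sq_le_sq_mul_sq _ _ _
      _ ≤ (M * a ^ 2) * (M * b ^ 2) :=
          mul_le_mul hD hF (Finset.sum_nonneg fun _ _ => sq_nonneg _) (by positivity)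
      _ = (M * a * b) ^ 2 := by ring
  have h2 : ∑ i, D i * F i ≤ M * a * b := by
    have := abs_le_of_sq_le_sq' h1 (by positivity)
    exact this.2
  have h3 : ∑ i, (D i + F i) ^ 2 = ∑ i, D i ^ 2 + 2 * ∑ i, D i * F i + ∑ i, F i ^ 2 := by
    rw [Finset.mul_sum, ← Finset.sum_add_distrib, ← Finset.sum_add_distrib]
    exact Finset.sum_congr rfl fun i _ => by ring
  rw [h3]
  nlinarith

theorem goodL_step (v : I → J → ℝ) {δ σ M : ℝ} (hδ0 : 0 < δ) (hδ1 : δ ≤ 1) (hσ : 1 ≤ σ)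
    (hM : 0 ≤ M) (hvδ : ∀ i j, |v i j| ≤ δ) (hv : ∀ j, ∑ i, v i j ^ 2 ≤ 1) (l : ℕ)
    (H : GoodL v δ σ M (l + 1)) : GoodL v δ σ M l := by
  classical
  by_cases hlt : M * exp (-(lv σ l)) < 1
  · exact goodL_empty v hδ0 hδ1 hM l hlt
  rw [not_lt] at hlt
  have hM0 : 0 < M := by
    by_contra hcon
    have : M = 0 := le_antisymm (not_lt.1 hcon) hM
    rw [this] at hlt
    norm_num at hlt
  intro x hx hal
  set N := M * exp (-(lv σ l)) with hN
  set k := ⌈M * exp (-(lv σ (l + 1)))⌉₊ with hk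
  have hN1 : 0 < M * exp (-(lv σ (l + 1))) := by positivity
  have hk1 : 1 ≤ k := Nat.ceil_pos.2 hN1
  have hkR : M * exp (-(lv σ (l + 1))) ≤ k := Nat.le_ceil _
  have hs1 := one_le_lv hσ l
  have hs0 := lv_nonneg hσ l
  obtain ⟨z, hz1, hz2, hz3, hz4⟩ := stage_two v δ hδ0 hδ1 hvδ hv x hx N hlt hal k hk1
    (5 + 2 * lv σ (l + 1)) (by linarith) (by
      have h1 : 2 * N / k ≤ 2 * exp (lv σ (l + 1)) := by
        rw [div_le_iff₀ (by exact_mod_cast hk1)]
        calc 2 * N = 2 * exp (lv σ (l + 1)) * (M * exp (-(lv σ (l + 1)))) * exp (-(lv σ l)) := by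
              rw [hN, Real.exp_neg (lv σ (l + 1))]
              field_simp
          _ ≤ 2 * exp (lv σ (l + 1)) * (M * exp (-(lv σ (l + 1)))) * 1 := by
              apply mul_le_mul_of_nonneg_left _ (by positivity)
              rw [Real.exp_le_one_iff]; linarith
          _ ≤ 2 * exp (lv σ (l + 1)) * k := by
              rw [mul_one]
              exact mul_le_mul_of_nonneg_left hkR (by positivity)
      have h2 : log (2 * N / k) ≤ 1 + lv σ (l + 1) := by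
        have h3 : 0 < 2 * N / k := by positivity
        calc log (2 * N / k) ≤ log (2 * exp (lv σ (l + 1))) := Real.log_le_log h3 h1
          _ = log 2 + lv σ (l + 1) := by
              rw [Real.log_mul (by norm_num) (exp_pos _).ne', Real.log_exp]
          _ ≤ 1 + lv σ (l + 1) := by
              have := Real.log_two_lt_d9
              linarith
      linarith)
  have hz5 : ((H167FK.Sys.alive z).card : ℝ) ≤ M * exp (-(lv σ (l + 1))) := (Nat.lt_ceil.1 hz4).le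
  obtain ⟨y, hy1, hy2, hy3⟩ := H z hz1.1 hz5
  set D : I → ℝ := fun i => ∑ j, v i j * (z j - x j) with hD
  have hsum : ∀ i, ∑ j, v i j * (y j - x j) = D i + ∑ j, v i j * (y j - z j) := by
    intro i
    rw [hD, ← Finset.sum_add_distrib]
    exact Finset.sum_congr rfl fun j _ => by ring
  have hD2 : ∑ i, D i ^ 2 ≤ M * (exp (-(lv σ l) / 2) * KK δ σ l) ^ 2 := by
    refine hz3.trans (le_of_eq ?_)
    rw [hN, mul_pow, ← Real.exp_nat_mul]
    unfold KK
    have : ((2 : ℕ) : ℝ) * (-(lv σ l) / 2) = -(lv σ l) := by push_cast; ring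
    rw [this]
    ring
  refine ⟨y, hy1, fun j hj => ?_, fun m hm => ?_⟩
  · have h1 := hz1.2 j hj
    rw [hy2 j (by rw [h1]; exact hj), h1]
  · rcases Nat.eq_or_lt_of_le hm with hm | hm
    · obtain ⟨E, F, h1, h2, h3⟩ := hy3 (l + 1) le_rfl
      subst hm
      refine ⟨fun _ => 0, fun i => D i + F i, fun i => ?_, fun i => by simp, ?_⟩
      · have h4 := h2 i
        rw [Finset.Ico_self, Finset.sum_empty] at h4
        have h5 : E i = 0 := abs_eq_zero.1 (le_antisymm h4 (abs_nonneg _))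
        rw [hsum i, h1 i, h5]
        simp
      · refine (l2_add D F _ _ M (mul_nonneg (exp_pos _).le (KK_nonneg hδ0 hδ1 l))
          (hh_nonneg hδ0 hδ1 _) hM hD2 h3).trans ?_
        apply mul_le_mul_of_nonneg_left _ hM
        apply pow_le_pow_left₀ _ (hh_step hδ0 hσ l)
        exact add_nonneg (mul_nonneg (exp_pos _).le (KK_nonneg hδ0 hδ1 l)) (hh_nonneg hδ0 hδ1 _)
    · obtain ⟨E, F, h1, h2, h3⟩ := hy3 m hm
      refine ⟨fun i => D i + E i, F, fun i => ?_, fun i => ?_, h3⟩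
      · rw [hsum i, h1 i]; ring
      · rw [Finset.sum_eq_sum_Ico_succ_bot hm]
        refine (abs_add_le _ _).trans (add_le_add ?_ (h2 i))
        exact hz2 i

/-- all levels, from a starting point with at most `M` uncoloured coordinates -/
theorem goodL_zero (v : I → J → ℝ) {δ σ M : ℝ} (hδ0 : 0 < δ) (hδ1 : δ ≤ 1) (hσ : 1 ≤ σ)
    (hM : 0 ≤ M) (hvδ : ∀ i j, |v i j| ≤ δ) (hv : ∀ j, ∑ i, v i j ^ 2 ≤ 1) :
    GoodL v δ σ M 0 := by
  obtain ⟨T, hT⟩ : ∃ T : ℕ, M * exp (-(lv σ (T + 1))) < 1 := by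
    obtain ⟨T, hT⟩ := exists_nat_gt M
    refine ⟨T, ?_⟩
    have h1 : (T : ℝ) ≤ lv σ (T + 1) := by
      rw [lv_succ]
      have h2 : (T : ℝ) ≤ 4 ^ T := by
        have : T < 4 ^ T := Nat.lt_pow_self (by norm_num)
        exact_mod_cast this.le
      nlinarith
    have h3 : exp (-(lv σ (T + 1))) ≤ exp (-(T : ℝ)) := Real.exp_le_exp.2 (by linarith)
    have h4 : M * exp (-(T : ℝ)) < 1 := by
      rw [Real.exp_neg, ← div_eq_mul_inv, div_lt_one (exp_pos _)]
      have := Real.add_one_le_exp (T : ℝ)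
      linarith
    exact lt_of_le_of_lt (mul_le_mul_of_nonneg_left h3 hM) h4
  have key : ∀ q : ℕ, ∀ l : ℕ, l + q = T + 1 → GoodL v δ σ M l := by
    intro q
    induction q with
    | zero =>
      intro l hl
      have : l = T + 1 := by omega
      rw [this]
      exact goodL_empty v hδ0 hδ1 hM _ hT
    | succ q ih =>
      intro l hl
      exact goodL_step v hδ0 hδ1 hσ hM hvδ hv l (ih (l + 1) (by omega))
  exact key (T + 1) 0 (by omega)

end Pool.Agent.Q127.Kom
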