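import Pool.Agent.Q127.Kom.Num
import Pool.Agent.H167R2.KNLin

/-!
# Counting the large coordinates
-/

set_option autoImplicit false

namespace Pool.Agent.Q127.Kom

open Finset Real H167BK H167KN

variable {I J : Type*} [Fintype I] [Fintype J]

theorem card_le_sq (F : I → ℝ) (P : I → Prop) [DecidablePred P] (h : ∀ i, P i → 1 ≤ |F i|) :
    ((univ.filter P).card : ℝ) ≤ ∑ i, F i ^ 2 := by
  classical
  calc ((univ.filter P).card : ℝ) = ∑ i ∈ univ.filter P, (1 : ℝ) := by simp
    _ ≤ ∑ i ∈ univ.filter P, F i ^ 2 := by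
        refine Finset.sum_le_sum fun i hi => ?_
        rw [← sq_abs]
        exact one_le_pow₀ (h i (Finset.mem_filter.1 hi).2)
    _ ≤ ∑ i, F i ^ 2 :=
        Finset.sum_le_sum_of_subset_of_nonneg (Finset.filter_subset _ _)
          (fun _ _ _ => sq_nonneg _)

theorem hh_le {δ : ℝ} (hδ0 : 0 < δ) (hδ1 : δ ≤ 1) (m : ℕ) :
    hh δ (sg δ) (m + 1) ^ 2 ≤ exp (36 - lv (sg δ) (m + 1) / 4) := by
  have h1 : hh δ (sg δ) (m + 1) = 300000 / δ * exp (-(lv (sg δ) (m + 1)) / 4) := rfl
  have h2 : sg δ ≤ lv (sg δ) (m + 1) := by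
    rw [lv_succ]
    have h3 : (1 : ℝ) ≤ 4 ^ m := one_le_pow₀ (by norm_num)
    have := one_le_sg δ
    nlinarith
  rw [h1]
  set s := lv (sg δ) (m + 1) with hs
  have h3 : 300000 / δ ≤ 8100000 * s := by
    have h4 := inv_le_sg hδ0 hδ1
    have h5 : 300000 / δ = 300000 * (1 / δ) := by ring
    rw [h5]; linarith
  have hs1 : 1 ≤ s := (one_le_sg δ).trans h2
  have h6 : (300000 / δ * exp (-s / 4)) ^ 2 ≤ (8100000 * s * exp (-s / 4)) ^ 2 := by
    apply pow_le_pow_left₀ (by positivity)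
    exact mul_le_mul_of_nonneg_right h3 (exp_pos _).le
  have h7 : (8100000 * s * exp (-s / 4)) ^ 2 = 65610000000000 * (s ^ 2 * exp (-(s / 4))) *
      exp (-(s / 4)) := by
    rw [mul_pow, ← Real.exp_nat_mul]
    have : exp (((2 : ℕ) : ℝ) * (-s / 4)) = exp (-(s / 4)) * exp (-(s / 4)) := by
      rw [← Real.exp_add]; congr 1; push_cast; ring
    rw [this]; ring
  have h8 : s ^ 2 * exp (-(s / 4)) ≤ 32 := by
    rw [Real.exp_neg, ← div_eq_mul_inv, div_le_iff₀ (exp_pos _)]
    have := Real.quadratic_le_exp_of_nonneg (show 0 ≤ s / 4 by linarith)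
    nlinarith
  have h9 : (2099520000000000 : ℝ) ≤ exp 36 := by
    have h10 : exp 36 = exp 1 ^ 36 := by
      rw [← Real.exp_nat_mul]; norm_num
    rw [h10]
    have h11 : (2.7 : ℝ) ≤ exp 1 := by
      have := Real.exp_one_gt_d9
      linarith
    calc (2099520000000000 : ℝ) ≤ 2.7 ^ 36 := by norm_num
      _ ≤ exp 1 ^ 36 := pow_le_pow_left₀ (by norm_num) h11 36
  calc (300000 / δ * exp (-s / 4)) ^ 2 ≤ 65610000000000 * (s ^ 2 * exp (-(s / 4))) *
        exp (-(s / 4)) := by rw [← h7]; exact h6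
    _ ≤ 65610000000000 * 32 * exp (-(s / 4)) := by gcongr
    _ = 2099520000000000 * exp (-(s / 4)) := by ring
    _ ≤ exp 36 * exp (-(s / 4)) := mul_le_mul_of_nonneg_right h9 (exp_pos _).le
    _ = exp (36 - s / 4) := by rw [← Real.exp_add]; congr 1

/-- **Main theorem** for finite index types. -/
theorem main (v : I → J → ℝ) (δ : ℝ) (hδ0 : 0 < δ) (hδ1 : δ ≤ 1)
    (hvδ : ∀ i j, |v i j| ≤ δ) (hv : ∀ j, ∑ i, v i j ^ 2 ≤ 1) (x0 : J → ℝ)
    (hx0 : ∀ j, |x0 j| ≤ 1) :
    ∃ y : J → ℝ, (∀ j, |y j| = 1) ∧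
      (∀ s : ℝ, 1 ≤ s →
        ((univ.filter (fun i => 21000000000 * EE δ s < |∑ j, v i j * (y j - x0 j)|)).card : ℝ) ≤
          (min (Fintype.card J) (Fintype.card I) : ℕ) * exp (-s)) ∧
      ∑ i, (∑ j, v i j * (y j - x0 j)) ^ 2 ≤
        (min (Fintype.card J) (Fintype.card I) : ℕ) * hh δ (sg δ) 0 ^ 2 := by
  classical
  obtain ⟨z, hz1, hz2, hz3⟩ := H167KN.reduce v (Fintype.card J) x0 hx0 (Finset.card_le_univ _)
  have hz4 : ((H167FK.Sys.alive z).card : ℝ) ≤ (min (Fintype.card J) (Fintype.card I) : ℕ) := by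
    exact_mod_cast le_min (Finset.card_le_univ _) hz3
  set M : ℝ := ((min (Fintype.card J) (Fintype.card I) : ℕ) : ℝ) with hM
  have hM0 : 0 ≤ M := Nat.cast_nonneg _
  obtain ⟨y, hy1, hy2, hy3⟩ := goodL_zero v hδ0 hδ1 (one_le_sg δ) hM0 hvδ hv z hz1.1 (by
    rw [lv_zero, neg_zero, Real.exp_zero, mul_one]; exact hz4)
  have hsum : ∀ i, ∑ j, v i j * (y j - x0 j) = ∑ j, v i j * (y j - z j) := by
    intro i
    have h1 : ∑ j, v i j * (y j - x0 j) =
        ∑ j, v i j * (y j - z j) + ∑ j, v i j * (z j - x0 j) := by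
      rw [← Finset.sum_add_distrib]
      exact Finset.sum_congr rfl fun j _ => by ring
    rw [h1, hz2 i, add_zero]
  refine ⟨y, hy1, ?_⟩
  simp only [hsum]
  refine ⟨fun s hs => ?_, ?_⟩
  · -- the level
    have hex : ∃ m : ℕ, 4 * (s + 36) ≤ lv (sg δ) (m + 1) := by
      obtain ⟨T, hT⟩ := exists_nat_gt (4 * (s + 36))
      refine ⟨T, ?_⟩
      rw [lv_succ]
      have h2 : (T : ℝ) ≤ 4 ^ T := by
        have : T < 4 ^ T := Nat.lt_pow_self (by norm_num)
        exact_mod_cast this.le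
      have := one_le_sg δ
      nlinarith
    set m := Nat.find hex with hm
    have hm1 : 4 * (s + 36) ≤ lv (sg δ) (m + 1) := Nat.find_spec hex
    have hE : EE δ (lv (sg δ) (m + 1)) ≤ 25 * EE δ s := by
      have h1 := one_le_EE hδ0 hδ1 s hs
      rcases Nat.eq_zero_or_pos m with h0 | hpos
      · rw [h0]
        have h2 := EE_sg hδ0 hδ1
        have h3 : lv (sg δ) (0 + 1) = sg δ := by rw [lv_succ, pow_zero, mul_one]
        rw [h3]
        linarith
      · obtain ⟨m', hm'⟩ := Nat.exists_eq_succ_of_ne_zero hpos.ne'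
        have h2 : ¬ (4 * (s + 36) ≤ lv (sg δ) (m' + 1)) := Nat.find_min hex (by omega)
        rw [not_le] at h2
        have h3 : lv (sg δ) (m + 1) = 4 * lv (sg δ) (m' + 1) := by
          rw [hm', ← lv_succ_succ]
        refine le_trans (EE_mono hδ0 hδ1 (lv_nonneg (one_le_sg δ) _) (t := 625 * s) ?_)
          (EE_scale hδ0 hδ1 s (by linarith))
        rw [h3]
        linarith
    obtain ⟨E, F, h1, h2, h3⟩ := hy3 (m + 1) (Nat.zero_le _)
    refine (card_le_sq F _ fun i hi => ?_).trans (h3.trans ?_)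
    · rw [h1 i] at hi
      have h4 := (h2 i).trans (cost_sum hδ0 hδ1 m)
      have h5 := abs_add_le (E i) (F i)
      have h6 := one_le_EE hδ0 hδ1 s hs
      linarith
    · apply mul_le_mul_of_nonneg_left _ hM0
      refine (hh_le hδ0 hδ1 m).trans ?_
      apply Real.exp_le_exp.2
      linarith
  · obtain ⟨E, F, h1, h2, h3⟩ := hy3 0 le_rfl
    have h4 : ∀ i, ∑ j, v i j * (y j - z j) = F i := by
      intro i
      have h5 := h2 i
      rw [Finset.Ico_self, Finset.sum_empty] at h5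
      have h6 : E i = 0 := abs_eq_zero.1 (le_antisymm h5 (abs_nonneg _))
      rw [h1 i, h6, zero_add]
    simp only [h4]
    exact h3

theorem EE_one (s : ℝ) (hs : 1 ≤ s) : EE 1 s = s ^ (1 / 4 : ℝ) := by
  unfold EE
  apply min_eq_left
  rw [one_mul, div_one, Real.log_one, add_zero, Real.one_rpow, mul_one, Real.sqrt_eq_rpow]
  have : s ^ (1 / 4 : ℝ) ≤ s ^ (1 / 2 : ℝ) := Real.rpow_le_rpow_of_exponent_le hs (by norm_num)
  linarith

theorem sg_one : sg 1 = 1 := by
  unfold sg; norm_num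

theorem hh_one : hh 1 (sg 1) 0 ≤ 300000000 := by
  have h1 : hh 1 (sg 1) 0 = KK 1 (sg 1) 0 + 300000 / 1 * exp (-(lv (sg 1) 1) / 4) := rfl
  have h2 := cost_le one_pos le_rfl (sg 1) (one_le_sg 1) 0
  have h3 : lv (sg 1) (0 + 1) = 1 := by rw [lv_succ, sg_one]; norm_num
  rw [one_mul, h3, EE_one 1 le_rfl, Real.one_rpow] at h2
  rw [h1]
  have h4 : exp (-(lv (sg 1) 1) / 4) ≤ 1 := by
    rw [Real.exp_le_one_iff]
    have := lv_nonneg (one_le_sg 1) 1
    linarith
  linarith

/-- from the counts and the second moment to all moments -/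
theorem moments (X : I → ℝ) (M C : ℝ) (hM : 0 ≤ M) (hC : 1 ≤ C)
    (h1 : ∀ s : ℝ, 1 ≤ s →
      ((univ.filter (fun i => C * s ^ (1 / 4 : ℝ) < |X i|)).card : ℝ) ≤ M * exp (-s))
    (h2 : ∑ i, X i ^ 2 ≤ M * C ^ 2) (p : ℝ) (hp : 2 ≤ p) :
    ∑ i, |X i| ^ p ≤ M * (2 * C * p ^ (1 / 4 : ℝ)) ^ p := by
  classical
  have hp0 : 0 < p := by linarith
  set q : ℝ := C * p ^ (1 / 4 : ℝ) with hq
  have hq1 : C ≤ q := by
    have : 1 ≤ p ^ (1 / 4 : ℝ) := Real.one_le_rpow (by linarith) (by norm_num)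
    rw [hq]; nlinarith
  have hq0 : 0 < q := by linarith
  let lam : ℕ → ℝ := fun k => C * (p * (k + 1)) ^ (1 / 4 : ℝ)
  have hlam0 : lam 0 = q := by simp [lam, hq]
  have hlampos : ∀ k, 0 < lam k := fun k => by simp only [lam]; positivity
  -- termination
  obtain ⟨K, hK⟩ : ∃ K : ℕ, ∀ i, |X i| ≤ lam K := by
    obtain ⟨K, hK⟩ := exists_nat_gt M
    refine ⟨K, fun i => ?_⟩
    by_contra hcon
    rw [not_le] at hcon
    change C * (p * ((K : ℝ) + 1)) ^ (1 / 4 : ℝ) < |X i| at hcon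
    have h3 := h1 (p * ((K : ℝ) + 1)) (by nlinarith [(Nat.cast_nonneg K : (0 : ℝ) ≤ K)])
    have h4 : (1 : ℝ) ≤ ((univ.filter (fun i => C * (p * ((K : ℝ) + 1)) ^ (1 / 4 : ℝ) < |X i|)).card : ℝ) := by
      exact Nat.one_le_cast.2 (Finset.card_pos.2 ⟨i, Finset.mem_filter.2 ⟨Finset.mem_univ _, hcon⟩⟩)
    have h5 : M * exp (-(p * (K + 1))) < 1 := by
      rw [Real.exp_neg, ← div_eq_mul_inv, div_lt_one (exp_pos _)]
      have h6 := Real.add_one_le_exp (p * (K + 1))
      nlinarith [(Nat.cast_nonneg K : (0 : ℝ) ≤ K)]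
    linarith
  -- pointwise
  have hpt : ∀ K : ℕ, ∀ i, |X i| ≤ lam K → |X i| ^ p ≤ q ^ (p - 2) * X i ^ 2 +
      ∑ k ∈ Finset.range K, lam (k + 1) ^ p * (if lam k < |X i| then 1 else 0) := by
    intro K
    induction K with
    | zero =>
      intro i hi
      rw [hlam0] at hi
      simp only [Finset.range_zero, Finset.sum_empty, add_zero]
      rcases eq_or_ne (X i) 0 with h0 | h0
      · rw [h0, abs_zero, Real.zero_rpow hp0.ne']; positivity
      · have h3 : 0 < |X i| := abs_pos.2 h0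
        have h4 : |X i| ^ p = |X i| ^ (p - 2) * X i ^ 2 := by
          rw [← sq_abs (X i), ← Real.rpow_natCast |X i| 2, ← Real.rpow_add h3]
          norm_num
        rw [h4]
        apply mul_le_mul_of_nonneg_right _ (sq_nonneg _)
        exact Real.rpow_le_rpow (abs_nonneg _) hi (by linarith)
    | succ K ih =>
      intro i hi
      rw [Finset.sum_range_succ]
      by_cases h3 : lam K < |X i|
      · rw [if_pos h3, mul_one]
        have h4 : |X i| ^ p ≤ lam (K + 1) ^ p := Real.rpow_le_rpow (abs_nonneg _) hi hp0.le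
        have h5 : 0 ≤ q ^ (p - 2) * X i ^ 2 := by positivity
        have h6 : 0 ≤ ∑ k ∈ Finset.range K, lam (k + 1) ^ p * (if lam k < |X i| then (1 : ℝ) else 0) := by
          refine Finset.sum_nonneg fun k _ => mul_nonneg (Real.rpow_nonneg (hlampos _).le _) ?_
          split_ifs <;> norm_num
        linarith
      · rw [if_neg h3, mul_zero, add_zero]
        exact ih i (not_lt.1 h3)
  have hterm : ∀ k : ℕ, lam (k + 1) ^ p * exp (-(p * (k + 1))) ≤ q ^ p * (1 / 2) ^ (k + 1) := by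
    intro k
    have e1 : lam (k + 1) = q * ((k : ℝ) + 2) ^ (1 / 4 : ℝ) := by
      simp only [lam]
      rw [Real.mul_rpow hp0.le (by positivity), hq]
      push_cast
      have : (k : ℝ) + 1 + 1 = k + 2 := by ring
      rw [this]; ring
    have e2 : exp (-(p * (k + 1))) = (exp (-((k : ℝ) + 1))) ^ p := by
      rw [← Real.exp_mul]; congr 1; ring
    have e3 : ((k : ℝ) + 2) ^ (1 / 4 : ℝ) * exp (-((k : ℝ) + 1)) ≤ (1 / 2) ^ (k + 1) := by
      have h3 : ((k : ℝ) + 2) ^ (1 / 4 : ℝ) ≤ 1 + 1 / 4 * ((k : ℝ) + 1) := by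
        have := rpow_one_add_le_one_add_mul_self (s := (k : ℝ) + 1) (p := 1 / 4)
          (by have := (Nat.cast_nonneg k : (0 : ℝ) ≤ k); linarith) (by norm_num) (by norm_num)
        rw [show (1 : ℝ) + ((k : ℝ) + 1) = k + 2 by ring] at this
        exact this
      have h4 : 1 + 1 / 4 * ((k : ℝ) + 1) ≤ (1.35 : ℝ) ^ (k + 1) := by
        have := one_add_mul_le_pow (a := (0.35 : ℝ)) (by norm_num) (k + 1)
        push_cast at this
        have h5 := (Nat.cast_nonneg k : (0 : ℝ) ≤ k)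
        norm_num at this ⊢
        linarith
      have h5 : (1.35 : ℝ) ^ (k + 1) * 2 ^ (k + 1) ≤ exp ((k : ℝ) + 1) := by
        rw [← mul_pow]
        have h6 : exp ((k : ℝ) + 1) = exp 1 ^ (k + 1) := by
          rw [← Real.exp_nat_mul]; push_cast; congr 1; ring
        rw [h6]
        apply pow_le_pow_left₀ (by norm_num)
        have := Real.exp_one_gt_d9
        linarith
      have h7 : ((k : ℝ) + 2) ^ (1 / 4 : ℝ) ≤ (1.35 : ℝ) ^ (k + 1) := h3.trans h4
      have h8 : (1 / 2 : ℝ) ^ (k + 1) * 2 ^ (k + 1) = 1 := by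
        rw [← mul_pow]; norm_num
      rw [Real.exp_neg, ← div_eq_mul_inv, div_le_iff₀ (exp_pos _)]
      calc ((k : ℝ) + 2) ^ (1 / 4 : ℝ) ≤ (1.35 : ℝ) ^ (k + 1) := h7
        _ = (1 / 2 : ℝ) ^ (k + 1) * ((1.35 : ℝ) ^ (k + 1) * 2 ^ (k + 1)) := by
            rw [mul_comm, mul_assoc, mul_comm ((2 : ℝ) ^ (k + 1)), h8, mul_one]
        _ ≤ (1 / 2 : ℝ) ^ (k + 1) * exp ((k : ℝ) + 1) :=
            mul_le_mul_of_nonneg_left h5 (by positivity)
    rw [e1, e2, Real.mul_rpow hq0.le (by positivity), mul_assoc,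
      ← Real.mul_rpow (by positivity) (exp_pos _).le]
    apply mul_le_mul_of_nonneg_left _ (by positivity)
    have h3 : (((k : ℝ) + 2) ^ (1 / 4 : ℝ) * exp (-((k : ℝ) + 1))) ^ p ≤
        ((1 / 2 : ℝ) ^ (k + 1)) ^ p :=
      Real.rpow_le_rpow (by positivity) e3 hp0.le
    refine h3.trans ?_
    have h4 : ((1 / 2 : ℝ) ^ (k + 1)) ^ p ≤ ((1 / 2 : ℝ) ^ (k + 1)) ^ (1 : ℝ) := by
      apply Real.rpow_le_rpow_of_exponent_ge (by positivity)
        (pow_le_one₀ (by norm_num) (by norm_num)) (by linarith)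
    rwa [Real.rpow_one] at h4
  have hmain : ∑ i, |X i| ^ p ≤ M * (q ^ p + q ^ p) := by
    calc ∑ i, |X i| ^ p ≤ ∑ i, (q ^ (p - 2) * X i ^ 2 +
          ∑ k ∈ Finset.range K, lam (k + 1) ^ p * (if lam k < |X i| then 1 else 0)) :=
          Finset.sum_le_sum fun i _ => hpt K i (hK i)
      _ = q ^ (p - 2) * ∑ i, X i ^ 2 + ∑ k ∈ Finset.range K, lam (k + 1) ^ p *
          ((univ.filter (fun i => lam k < |X i|)).card : ℝ) := by
          rw [Finset.sum_add_distrib, ← Finset.mul_sum, Finset.sum_comm]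
          congr 1
          refine Finset.sum_congr rfl fun k _ => ?_
          rw [← Finset.mul_sum]
          congr 1
          rw [Finset.sum_boole]
      _ ≤ q ^ (p - 2) * (M * C ^ 2) + ∑ k ∈ Finset.range K, lam (k + 1) ^ p *
          (M * exp (-(p * (k + 1)))) := by
          apply add_le_add
          · exact mul_le_mul_of_nonneg_left h2 (by positivity)
          · refine Finset.sum_le_sum fun k _ => ?_
            apply mul_le_mul_of_nonneg_left _ (Real.rpow_nonneg (hlampos _).le _)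
            exact h1 (p * (k + 1)) (by nlinarith [(Nat.cast_nonneg k : (0 : ℝ) ≤ k)])
      _ ≤ M * q ^ p + M * q ^ p := by
          apply add_le_add
          · have h3 : q ^ (p - 2) * C ^ 2 ≤ q ^ p := by
              have h4 : q ^ p = q ^ (p - 2) * q ^ 2 := by
                rw [← Real.rpow_natCast q 2, ← Real.rpow_add hq0]; norm_num
              rw [h4]
              apply mul_le_mul_of_nonneg_left _ (by positivity)
              exact pow_le_pow_left₀ (by linarith) hq1 2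
            calc q ^ (p - 2) * (M * C ^ 2) = M * (q ^ (p - 2) * C ^ 2) := by ring
              _ ≤ M * q ^ p := mul_le_mul_of_nonneg_left h3 hM
          · calc ∑ k ∈ Finset.range K, lam (k + 1) ^ p * (M * exp (-(p * (k + 1))))
                ≤ ∑ k ∈ Finset.range K, M * q ^ p * (1 / 2) ^ (k + 1) := by
                  refine Finset.sum_le_sum fun k _ => ?_
                  calc lam (k + 1) ^ p * (M * exp (-(p * (k + 1))))
                      = M * (lam (k + 1) ^ p * exp (-(p * (k + 1)))) := by ring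
                    _ ≤ M * (q ^ p * (1 / 2) ^ (k + 1)) :=
                        mul_le_mul_of_nonneg_left (hterm k) hM
                    _ = M * q ^ p * (1 / 2) ^ (k + 1) := by ring
              _ = M * q ^ p * ∑ k ∈ Finset.range K, (1 / 2 : ℝ) ^ (k + 1) := by
                  rw [Finset.mul_sum]
              _ ≤ M * q ^ p * 1 := by
                  apply mul_le_mul_of_nonneg_left _ (by positivity)
                  have h3 : ∀ K : ℕ, ∑ k ∈ Finset.range K, (1 / 2 : ℝ) ^ (k + 1) = 1 - (1 / 2) ^ K := by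
                    intro K
                    induction K with
                    | zero => simp
                    | succ K ih => rw [Finset.sum_range_succ, ih]; ring
                  rw [h3]
                  have : (0 : ℝ) ≤ (1 / 2) ^ K := by positivity
                  linarith
              _ = M * q ^ p := mul_one _
      _ = M * (q ^ p + q ^ p) := by ring
  refine hmain.trans ?_
  apply mul_le_mul_of_nonneg_left _ hM
  have h3 : 2 * C * p ^ (1 / 4 : ℝ) = 2 * q := by rw [hq]; ring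
  rw [h3, Real.mul_rpow (by norm_num) hq0.le]
  have h4 : (2 : ℝ) ≤ 2 ^ p := by
    calc (2 : ℝ) = 2 ^ (1 : ℝ) := by rw [Real.rpow_one]
      _ ≤ 2 ^ p := Real.rpow_le_rpow_of_exponent_le (by norm_num) (by linarith)
  have h5 : 0 ≤ q ^ p := by positivity
  nlinarith

end Pool.Agent.Q127.Kom
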