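import Pool.Agent.Q127.Kom.Levels

/-!
# Numerical part
-/

set_option autoImplicit false

namespace Pool.Agent.Q127.Kom

open Finset Real H167BK H167KN

/-- the bound -/
noncomputable def EE (δ s : ℝ) : ℝ :=
  min (s ^ (1 / 4 : ℝ)) (1 + δ * Real.sqrt s * (1 + log (1 / δ)) ^ (3 / 2 : ℝ))

/-- the first level -/
noncomputable def sg (δ : ℝ) : ℝ := max 1 (1 / (δ ^ 2 * (1 + log (1 / δ)) ^ 3))

theorem one_le_sg (δ : ℝ) : 1 ≤ sg δ := le_max_left _ _

section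
variable {δ : ℝ} (hδ0 : 0 < δ) (hδ1 : δ ≤ 1)
include hδ0 hδ1

theorem log_nn : 0 ≤ log (1 / δ) := by
  apply Real.log_nonneg
  rw [le_div_iff₀ hδ0]; linarith

theorem EE_nonneg (s : ℝ) (hs : 0 ≤ s) : 0 ≤ EE δ s := by
  have := log_nn hδ0 hδ1
  unfold EE
  apply le_min
  · positivity
  · positivity

theorem one_le_EE (s : ℝ) (hs : 1 ≤ s) : 1 ≤ EE δ s := by
  have := log_nn hδ0 hδ1
  unfold EE
  apply le_min
  · exact Real.one_le_rpow hs (by norm_num)
  · have : 0 ≤ δ * Real.sqrt s * (1 + log (1 / δ)) ^ (3 / 2 : ℝ) := by positivity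
    linarith

theorem EE_mono {s t : ℝ} (hs : 0 ≤ s) (hst : s ≤ t) : EE δ s ≤ EE δ t := by
  have := log_nn hδ0 hδ1
  unfold EE
  apply min_le_min
  · exact Real.rpow_le_rpow hs hst (by norm_num)
  · gcongr

theorem EE_scale (s : ℝ) (hs : 0 ≤ s) : EE δ (625 * s) ≤ 25 * EE δ s := by
  have := log_nn hδ0 hδ1
  unfold EE
  rw [mul_min_of_nonneg _ _ (by norm_num : (0 : ℝ) ≤ 25)]
  apply min_le_min
  · rw [Real.mul_rpow (by norm_num) hs]
    have h1 : (625 : ℝ) ^ (1 / 4 : ℝ) = 5 := by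
      rw [show (625 : ℝ) = 5 ^ (4 : ℝ) by norm_num, ← Real.rpow_mul (by norm_num)]
      norm_num
    rw [h1]
    have : 0 ≤ s ^ (1 / 4 : ℝ) := by positivity
    linarith
  · have h1 : Real.sqrt (625 * s) = 25 * Real.sqrt s := by
      rw [Real.sqrt_mul (by norm_num), show (625 : ℝ) = 25 ^ 2 by norm_num,
        Real.sqrt_sq (by norm_num)]
    rw [h1]
    have : 0 ≤ δ * Real.sqrt s * (1 + log (1 / δ)) ^ (3 / 2 : ℝ) := by positivity
    nlinarith

theorem y_ge (s : ℝ) (hs : sg δ ≤ s) :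
    1 ≤ δ * Real.sqrt s * (1 + log (1 / δ)) ^ (3 / 2 : ℝ) := by
  have hL := log_nn hδ0 hδ1
  have h1 : 1 / (δ ^ 2 * (1 + log (1 / δ)) ^ 3) ≤ s := (le_max_right _ _).trans hs
  have h2 : (Real.sqrt (δ ^ 2 * s * (1 + log (1 / δ)) ^ 3)) =
      δ * Real.sqrt s * (1 + log (1 / δ)) ^ (3 / 2 : ℝ) := by
    have hs0 : 0 ≤ s := le_trans (by positivity) h1
    rw [Real.sqrt_mul (by positivity), Real.sqrt_mul (by positivity), Real.sqrt_sq hδ0.le,
      Real.sqrt_eq_rpow ((1 + log (1 / δ)) ^ 3), ← Real.rpow_natCast, ← Real.rpow_mul (by positivity)]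
    norm_num
  rw [← h2]
  apply Real.le_sqrt_of_sq_le
  rw [div_le_iff₀ (by positivity)] at h1
  nlinarith

theorem EE_four (s : ℝ) (hs : sg δ ≤ s) : EE δ s ≤ 3 / 4 * EE δ (4 * s) := by
  have hL := log_nn hδ0 hδ1
  have hs1 : 1 ≤ s := (one_le_sg δ).trans hs
  have h1 := y_ge hδ0 hδ1 s hs
  unfold EE
  rw [mul_min_of_nonneg _ _ (by norm_num : (0 : ℝ) ≤ 3 / 4)]
  apply min_le_min
  · rw [Real.mul_rpow (by norm_num) (by linarith)]
    have h2 : (4 / 3 : ℝ) ≤ 4 ^ (1 / 4 : ℝ) := by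
      have h3 : (4 / 3 : ℝ) = ((4 / 3 : ℝ) ^ (4 : ℝ)) ^ (1 / 4 : ℝ) := by
        rw [← Real.rpow_mul (by norm_num)]; norm_num
      rw [h3]
      apply Real.rpow_le_rpow (by positivity) _ (by norm_num)
      rw [show (4 : ℝ) = ((4 : ℕ) : ℝ) by norm_num, Real.rpow_natCast]
      norm_num
    have : 0 ≤ s ^ (1 / 4 : ℝ) := by positivity
    nlinarith
  · have h2 : Real.sqrt (4 * s) = 2 * Real.sqrt s := by
      rw [Real.sqrt_mul (by norm_num), show (4 : ℝ) = 2 ^ 2 by norm_num,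
        Real.sqrt_sq (by norm_num)]
    rw [h2]
    nlinarith

theorem L_cube : (1 + log (1 / δ)) ^ 3 ≤ 27 * (1 / δ) := by
  have hL := log_nn hδ0 hδ1
  have h0 : 0 < 1 / δ := by positivity
  set u : ℝ := (1 / δ) ^ (1 / 3 : ℝ) with hu
  have hu0 : 0 < u := by positivity
  have h1 : log (1 / δ) = 3 * log u := by
    rw [hu, Real.log_rpow h0]; ring
  have h2 : u ^ 3 = 1 / δ := by
    rw [hu, ← Real.rpow_natCast, ← Real.rpow_mul h0.le]; norm_num
  have h3 := Real.log_le_sub_one_of_pos hu0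
  have h4 : 1 + log (1 / δ) ≤ 3 * u := by rw [h1]; linarith
  calc (1 + log (1 / δ)) ^ 3 ≤ (3 * u) ^ 3 := pow_le_pow_left₀ (by linarith) h4 3
    _ = 27 * (1 / δ) := by rw [mul_pow, h2]; norm_num

theorem inv_le_sg : 1 / δ ≤ 27 * sg δ := by
  have hL := log_nn hδ0 hδ1
  have h1 := L_cube hδ0 hδ1
  have h2 : 1 / (δ ^ 2 * (1 + log (1 / δ)) ^ 3) ≤ sg δ := le_max_right _ _
  have h3 : 1 / δ ≤ 27 * (1 / (δ ^ 2 * (1 + log (1 / δ)) ^ 3)) := by
    rw [mul_one_div, div_le_div_iff₀ hδ0 (by positivity)]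
    have h4 : δ ^ 2 * (1 + log (1 / δ)) ^ 3 ≤ δ ^ 2 * (27 * (1 / δ)) :=
      mul_le_mul_of_nonneg_left h1 (by positivity)
    have h5 : δ ^ 2 * (27 * (1 / δ)) = 27 * δ := by field_simp
    linarith
  linarith

theorem EE_sg : EE δ (sg δ) ≤ 2 := by
  have hL := log_nn hδ0 hδ1
  unfold EE
  rcases max_choice 1 (1 / (δ ^ 2 * (1 + log (1 / δ)) ^ 3)) with h | h
  · have : sg δ = 1 := h
    rw [this]
    refine (min_le_left _ _).trans ?_
    rw [Real.one_rpow]; norm_num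
  · have : sg δ = 1 / (δ ^ 2 * (1 + log (1 / δ)) ^ 3) := h
    rw [this]
    refine (min_le_right _ _).trans ?_
    have h2 : (Real.sqrt (δ ^ 2 * (1 / (δ ^ 2 * (1 + log (1 / δ)) ^ 3)) *
        (1 + log (1 / δ)) ^ 3)) =
        δ * Real.sqrt (1 / (δ ^ 2 * (1 + log (1 / δ)) ^ 3)) * (1 + log (1 / δ)) ^ (3 / 2 : ℝ) := by
      rw [Real.sqrt_mul (by positivity), Real.sqrt_mul (by positivity), Real.sqrt_sq hδ0.le,
        Real.sqrt_eq_rpow ((1 + log (1 / δ)) ^ 3), ← Real.rpow_natCast _ 3,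
        ← Real.rpow_mul (by positivity)]
      norm_num
    rw [← h2]
    have h3 : δ ^ 2 * (1 / (δ ^ 2 * (1 + log (1 / δ)) ^ 3)) * (1 + log (1 / δ)) ^ 3 = 1 := by
      have : 1 + log (1 / δ) ≠ 0 := by positivity
      field_simp
    rw [h3]; norm_num

/-- cost of a stage for the original rows -/
theorem cost_le (σ : ℝ) (hσ : 1 ≤ σ) (l : ℕ) :
    δ * KK δ σ l ≤ 200000000 * EE δ (lv σ (l + 1)) := by
  have hL := log_nn hδ0 hδ1
  have hs1 := one_le_lv hσ l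
  set s := lv σ (l + 1) with hs
  set δ' := δ / Real.sqrt 2 with hδ'
  have h2 : (1.41 : ℝ) ≤ Real.sqrt 2 := by
    apply Real.le_sqrt_of_sq_le; norm_num
  have h3 : Real.sqrt 2 ≤ 1.42 := by
    apply Real.sqrt_le_iff.2; norm_num
  have hδ'0 : 0 < δ' := by positivity
  have hδ'δ : δ' ≤ δ := div_le_self hδ0.le (by linarith)
  have h4 : 1 / δ' ^ 2 = 2 / δ ^ 2 := by
    rw [hδ', div_pow, Real.sq_sqrt (by norm_num)]
    field_simp
  have h5 := H167KN.cst_real δ' hδ'0 (hδ'δ.trans hδ1) (5 + 2 * s) s (by linarith) (by linarith)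
  rw [h4] at h5
  have hlog : log (1 / δ') ≤ log (1 / δ) + 1 / 2 := by
    have h6 : 1 / δ' = Real.sqrt 2 * (1 / δ) := by
      rw [hδ']; field_simp
    rw [h6, Real.log_mul (by positivity) (by positivity)]
    have h7 : log (Real.sqrt 2) ≤ 1 / 2 := by
      rw [Real.log_sqrt (by norm_num)]
      have := Real.log_two_lt_d9
      linarith
    linarith
  have hlog0 : 0 ≤ log (1 / δ') := log_nn hδ'0 (hδ'δ.trans hδ1)
  have h6 : (1 + log (1 / δ')) ^ (3 / 2 : ℝ) ≤ 2 * (1 + log (1 / δ)) ^ (3 / 2 : ℝ) := by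
    calc (1 + log (1 / δ')) ^ (3 / 2 : ℝ) ≤ (3 / 2 * (1 + log (1 / δ))) ^ (3 / 2 : ℝ) := by
          apply Real.rpow_le_rpow (by linarith) _ (by norm_num)
          linarith
      _ = (3 / 2) ^ (3 / 2 : ℝ) * (1 + log (1 / δ)) ^ (3 / 2 : ℝ) :=
          Real.mul_rpow (by norm_num) (by linarith)
      _ ≤ 2 * (1 + log (1 / δ)) ^ (3 / 2 : ℝ) := by
          apply mul_le_mul_of_nonneg_right _ (by positivity)
          have h7 : ((3 / 2 : ℝ)) ^ (3 / 2 : ℝ) = Real.sqrt ((3 / 2) ^ 3) := by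
            rw [Real.sqrt_eq_rpow, ← Real.rpow_natCast, ← Real.rpow_mul (by norm_num)]
            norm_num
          rw [h7]
          apply Real.sqrt_le_iff.2
          norm_num
  have h7 : min (s ^ (1 / 4 : ℝ)) (1 + δ' * Real.sqrt s * (1 + log (1 / δ')) ^ (3 / 2 : ℝ)) ≤
      2 * EE δ s := by
    unfold EE
    rw [mul_min_of_nonneg _ _ (by norm_num : (0 : ℝ) ≤ 2)]
    apply min_le_min
    · have : 0 ≤ s ^ (1 / 4 : ℝ) := by positivity
      linarith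
    · have h8 : δ' * Real.sqrt s * (1 + log (1 / δ')) ^ (3 / 2 : ℝ) ≤
          δ * Real.sqrt s * (2 * (1 + log (1 / δ)) ^ (3 / 2 : ℝ)) := by
        apply mul_le_mul _ h6 (by positivity) (by positivity)
        exact mul_le_mul_of_nonneg_right hδ'δ (Real.sqrt_nonneg _)
      linarith
  have h8 : δ * KK δ σ l = Real.sqrt 2 * (δ' * H167KN.cst (2 / δ ^ 2) (5 + 2 * s)) := by
    unfold KK
    rw [← hs]
    have : δ = Real.sqrt 2 * δ' := by rw [hδ']; field_simp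
    calc δ * H167KN.cst (2 / δ ^ 2) (5 + 2 * s) = (Real.sqrt 2 * δ') *
          H167KN.cst (2 / δ ^ 2) (5 + 2 * s) := by rw [← this]
      _ = _ := by ring
  rw [h8]
  have h9 := EE_nonneg hδ0 hδ1 s (by linarith)
  calc Real.sqrt 2 * (δ' * H167KN.cst (2 / δ ^ 2) (5 + 2 * s))
      ≤ 1.42 * (70000000 * (2 * EE δ s)) := by
        apply mul_le_mul h3 (h5.trans _) _ (by norm_num)
        · exact mul_le_mul_of_nonneg_left h7 (by norm_num)
        · exact mul_nonneg hδ'0.le (H167KN.cst_nonneg (two_div_ge hδ0 hδ1))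
    _ ≤ 200000000 * EE δ s := by linarith

theorem cost_sum (m : ℕ) :
    ∑ q ∈ Finset.Ico 0 (m + 1), δ * KK δ (sg δ) q ≤ 800000000 * EE δ (lv (sg δ) (m + 1)) := by
  induction m with
  | zero =>
    have h1 := cost_le hδ0 hδ1 (sg δ) (one_le_sg δ) 0
    have h2 := EE_nonneg hδ0 hδ1 (lv (sg δ) 1) (lv_nonneg (one_le_sg δ) 1)
    simp only [Nat.zero_add, Nat.Ico_succ_singleton, Finset.sum_singleton]
    simp only [Nat.zero_add] at h1
    linarith
  | succ m ih =>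
    rw [Finset.sum_Ico_succ_top (Nat.zero_le _)]
    have h1 := cost_le hδ0 hδ1 (sg δ) (one_le_sg δ) (m + 1)
    have h2 : sg δ ≤ lv (sg δ) (m + 1) := by
      rw [lv_succ]
      have h3 : (1 : ℝ) ≤ 4 ^ m := one_le_pow₀ (by norm_num)
      have := one_le_sg δ
      nlinarith
    have h3 := EE_four hδ0 hδ1 _ h2
    rw [← lv_succ_succ] at h3
    have h4 : lv (sg δ) (m + 1 + 1) = lv (sg δ) (m + 2) := rfl
    rw [h4] at h1 ⊢
    linarith

end

end Pool.Agent.Q127.Kom
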