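import Pool.Agent.Q127.Kom.LastE
import Pool.Agent.H167R2.KNLin

/-!
# One stage with a bound for the Euclidean norm of the change

The system is extended by the coordinates of the vectors in an orthonormal basis of their span.
-/

set_option autoImplicit false

namespace Pool.Agent.Q127.Kom

open Finset Real H167BJ H167BK H167KL H167KM H167KN

variable {I J : Type*} [Fintype I] [Fintype J]

/-- a matrix with rows `⟨θ_k, v_j⟩`, at most as many rows as there are uncoloured indices, which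
controls the Euclidean norm of all combinations of the `v_j`, `j ∈ S` -/
theorem basis_rows (v : I → J → ℝ) (S : Finset J) (hv : ∀ j, ∑ i, v i j ^ 2 ≤ 1) :
    ∃ (r : ℕ) (b : Fin r → J → ℝ), r ≤ S.card ∧ (∀ j, ∑ k, b k j ^ 2 ≤ 1) ∧
      ∀ z : J → ℝ, (∀ j, j ∉ S → z j = 0) →
        ∑ i, (∑ j, v i j * z j) ^ 2 = ∑ k, (∑ j, b k j * z j) ^ 2 := by
  classical
  let V : J → EuclideanSpace ℝ I := fun j => WithLp.toLp 2 (fun i => v i j)
  let W : Submodule ℝ (EuclideanSpace ℝ I) := Submodule.span ℝ (S.image V : Set (EuclideanSpace ℝ I))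
  have hVW : ∀ j ∈ S, V j ∈ W := fun j hj =>
    Submodule.subset_span (by
      rw [Finset.coe_image]
      exact Set.mem_image_of_mem V hj)
  let θ := stdOrthonormalBasis ℝ W
  have hr : Module.finrank ℝ W ≤ S.card :=
    (finrank_span_finset_le_card (S.image V)).trans Finset.card_image_le
  let w : J → W := fun j => if h : j ∈ S then ⟨V j, hVW j h⟩ else 0
  refine ⟨Module.finrank ℝ W, fun k j => inner ℝ (θ k) (w j), hr, fun j => ?_, fun z hz => ?_⟩
  · have h1 := θ.sum_sq_norm_inner_right (w j)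
    have h2 : ∑ k, (inner ℝ (θ k) (w j)) ^ 2 = ‖w j‖ ^ 2 := by
      rw [← h1]
      exact Finset.sum_congr rfl fun k _ => by rw [Real.norm_eq_abs, sq_abs]
    rw [h2]
    by_cases hj : j ∈ S
    · have h3 : w j = ⟨V j, hVW j hj⟩ := by simp only [w, dif_pos hj]
      rw [h3, Submodule.coe_norm, EuclideanSpace.norm_sq_eq]
      refine le_trans (le_of_eq ?_) (hv j)
      exact Finset.sum_congr rfl fun i _ => by rw [Real.norm_eq_abs, sq_abs]
    · have h3 : w j = 0 := by simp only [w, dif_neg hj]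
      rw [h3]; simp
  · let X : W := ∑ j, z j • w j
    have h1 := θ.sum_sq_norm_inner_right X
    have h2 : ∀ k, inner ℝ (θ k) X = ∑ j, inner ℝ (θ k) (w j) * z j := by
      intro k
      simp only [X]
      rw [inner_sum]
      refine Finset.sum_congr rfl fun j _ => ?_
      have h5 := real_inner_smul_right (θ k) (w j) (z j)
      rw [mul_comm] at h5
      exact h5
    have h3 : ∀ i, (X : EuclideanSpace ℝ I) i = ∑ j, v i j * z j := by
      intro i
      have h4 : (X : EuclideanSpace ℝ I) = ∑ j, z j • (w j : EuclideanSpace ℝ I) := by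
        simp only [X]
        push_cast
        rfl
      rw [h4, WithLp.ofLp_sum, Finset.sum_apply]
      refine Finset.sum_congr rfl fun j _ => ?_
      by_cases hj : j ∈ S
      · have h5 : w j = ⟨V j, hVW j hj⟩ := by simp only [w, dif_pos hj]
        rw [h5]
        simp only [V, WithLp.ofLp_smul, Pi.smul_apply, smul_eq_mul]
        ring
      · rw [hz j hj]; simp
    have h4 : ‖X‖ ^ 2 = ∑ i, (∑ j, v i j * z j) ^ 2 := by
      rw [Submodule.coe_norm, EuclideanSpace.norm_sq_eq]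
      exact Finset.sum_congr rfl fun i _ => by rw [Real.norm_eq_abs, sq_abs, h3]
    rw [← h4, ← h1]
    exact Finset.sum_congr rfl fun k _ => by rw [Real.norm_eq_abs, sq_abs, h2]

/-- **One stage.** Vectors of norm at most one with entries at most `δ`; at most `N` coordinates of
`x0` are uncoloured, fewer than `k` coordinates of `y` are. -/
theorem stage_two (v : I → J → ℝ) (δ : ℝ) (hδ0 : 0 < δ) (hδ1 : δ ≤ 1)
    (hvδ : ∀ i j, |v i j| ≤ δ) (hv : ∀ j, ∑ i, v i j ^ 2 ≤ 1) (x0 : J → ℝ)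
    (hx0 : ∀ j, |x0 j| ≤ 1) (N : ℝ) (hN1 : 1 ≤ N)
    (hN : ((H167FK.Sys.alive x0).card : ℝ) ≤ N) (k : ℕ) (hk1 : 1 ≤ k) (c : ℝ) (hc5 : 5 ≤ c)
    (hc : 2 * log (2 * N / k) ≤ c) :
    ∃ y : J → ℝ, Ext x0 y ∧
      (∀ i, |∑ j, v i j * (y j - x0 j)| ≤ δ * H167KN.cst (2 / δ ^ 2) c) ∧
      ∑ i, (∑ j, v i j * (y j - x0 j)) ^ 2 ≤ N * H167KN.cst (2 / δ ^ 2) c ^ 2 ∧
      (H167FK.Sys.alive y).card < k := by
  classical
  obtain ⟨r, b, hr, hb, hbs⟩ := basis_rows v (H167FK.Sys.alive x0) hv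
  have hd2 : (1 : ℝ) ≤ 1 / δ ^ 2 := by
    rw [le_div_iff₀ (by positivity)]; nlinarith
  have hd : (1 : ℝ) ≤ 2 / δ ^ 2 := by
    have : (2 : ℝ) / δ ^ 2 = 2 * (1 / δ ^ 2) := by ring
    rw [this]; linarith
  let a : I ⊕ Fin r → J → ℝ := fun q j => Sum.elim (fun i => v i j / δ) (fun k => b k j) q
  have hb1 : ∀ k j, |b k j| ≤ 1 := by
    intro k j
    rw [← sq_le_one_iff_abs_le_one]
    exact (Finset.single_le_sum (f := fun k => b k j ^ 2) (fun _ _ => sq_nonneg _)
      (Finset.mem_univ k)).trans (hb j)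
  have ha1 : ∀ q j, |a q j| ≤ 1 := by
    rintro (i | k) j
    · simp only [a, Sum.elim_inl]
      rw [abs_div, abs_of_pos hδ0, div_le_one hδ0]
      exact hvδ i j
    · simp only [a, Sum.elim_inr]
      exact hb1 k j
  have hcol : ∀ j, ∑ q, a q j ^ 2 ≤ 2 / δ ^ 2 := by
    intro j
    rw [Fintype.sum_sum_type]
    simp only [a, Sum.elim_inl, Sum.elim_inr, div_pow]
    rw [← Finset.sum_div]
    have h1 : (∑ i, v i j ^ 2) / δ ^ 2 ≤ 1 / δ ^ 2 :=
      div_le_div_of_nonneg_right (hv j) (by positivity)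
    have h2 := hb j
    have : (2 : ℝ) / δ ^ 2 = 1 / δ ^ 2 + 1 / δ ^ 2 := by ring
    rw [this]
    linarith
  obtain ⟨y, hy1, hy2, hy3, hy4⟩ := lastE a (2 / δ ^ 2) hd ha1 hcol x0 hx0 N hN1 hN k hk1 c hc5 hc
  have hK0 : 0 ≤ H167KN.cst (2 / δ ^ 2) c := H167KN.cst_nonneg hd
  refine ⟨y, ⟨hy1, fun j hj => hy2 j hj⟩, fun i => ?_, ?_, hy4⟩
  · have h1 := hy3 (Sum.inl i)
    simp only [a, Sum.elim_inl] at h1
    have h2 : ∑ j, v i j / δ * (y j - x0 j) = (∑ j, v i j * (y j - x0 j)) / δ := by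
      rw [Finset.sum_div]
      exact Finset.sum_congr rfl fun j _ => by ring
    rw [h2, abs_div, abs_of_pos hδ0, div_le_iff₀ hδ0] at h1
    linarith
  · have h1 := hbs (fun j => y j - x0 j) (by
      intro j hj
      have h2 : |x0 j| = 1 := H167FK.Sys.abs_eq_one hx0 hj
      simp only [hy2 j h2, sub_self])
    rw [h1]
    have h3 : ∀ k : Fin r, (∑ j, b k j * (y j - x0 j)) ^ 2 ≤ H167KN.cst (2 / δ ^ 2) c ^ 2 := by
      intro k
      have h4 := hy3 (Sum.inr k)
      simp only [a, Sum.elim_inr] at h4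
      rw [← sq_abs]
      exact pow_le_pow_left₀ (abs_nonneg _) h4 2
    calc ∑ k : Fin r, (∑ j, b k j * (y j - x0 j)) ^ 2 ≤ ∑ k : Fin r, H167KN.cst (2 / δ ^ 2) c ^ 2 :=
          Finset.sum_le_sum fun k _ => h3 k
      _ = r * H167KN.cst (2 / δ ^ 2) c ^ 2 := by
          rw [Finset.sum_const, nsmul_eq_mul, Finset.card_univ, Fintype.card_fin]
      _ ≤ N * H167KN.cst (2 / δ ^ 2) c ^ 2 := by
          apply mul_le_mul_of_nonneg_right _ (sq_nonneg _)
          exact le_trans (by exact_mod_cast hr) hN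

end Pool.Agent.Q127.Kom
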